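import Pool.Agent.J6H18.GS.Stm

/-! # GS-CV (helper85 for helper18) -/

set_option autoImplicit false

open MeasureTheory Filter Set
open scoped Topology ENNReal

namespace Pool.Agent.J6H18.GS

theorem t_CV : S_CV := by
  intro f hf hnt n
  rw [tendsto_atTop] at hnt
  push Not at hnt
  obtain ⟨C, hC⟩ := hnt
  have hfreq : ∃ᶠ t in 𝓝[>] (0 : ℝ), f t / t < C := by
    refine hC.mono ?_
    intro t ht
    exact ht
  have hex : ∀ δ : ℝ, 0 < δ → ∃ t : ℝ, 0 < t ∧ t < δ ∧ f t < C * t := by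
    intro δ hδ
    have h1 : ∀ᶠ t in 𝓝[>] (0 : ℝ), t ∈ Ioo (0 : ℝ) δ := Ioo_mem_nhdsGT hδ
    obtain ⟨t, ht1, ht2⟩ := (hfreq.and_eventually h1).exists
    refine ⟨t, ht2.1, ht2.2, ?_⟩
    rwa [div_lt_iff₀ ht2.1] at ht1
  have hC0 : 0 < C := by
    obtain ⟨t, h1, _, h3⟩ := hex 1 one_pos
    have := hf.pos t h1
    by_contra hcon
    push Not at hcon
    nlinarith
  have hb : H f (Icc (n : ℝ) (n + 1)) ≤ ENNReal.ofReal (3 * C) := by
    unfold H
    refine iSup₂_le ?_
    intro δ hδ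
    obtain ⟨t, ht0, ht1, ht2⟩ := hex (min δ 1) (lt_min hδ one_pos)
    have htδ : t ≤ δ := ht1.le.trans (min_le_left _ _)
    have ht1' : t ≤ 1 := ht1.le.trans (min_le_right _ _)
    obtain ⟨K, hK⟩ : ∃ K : ℕ, K = ⌈1 / t⌉₊ + 1 := ⟨_, rfl⟩
    have hK1 : (K : ℝ) * t ≤ 3 := by
      have h1 : (⌈1 / t⌉₊ : ℝ) < 1 / t + 1 := Nat.ceil_lt_add_one (by positivity)
      have h2 : (K : ℝ) < 1 / t + 2 := by
        rw [hK]
        push_cast
        linarith
      have h3 : (K : ℝ) * t ≤ (1 / t + 2) * t := mul_le_mul_of_nonneg_right h2.le ht0.le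
      have h4 : (1 / t + 2) * t = 1 + 2 * t := by
        field_simp
      linarith
    obtain ⟨U, hU⟩ : ∃ U : ℕ → Set ℝ, U = fun i => if i < K then Icc ((n : ℝ) + i * t) (n + i * t + t) else ∅ :=
      ⟨_, rfl⟩
    have hU1 : ∀ i, i < K → U i = Icc ((n : ℝ) + i * t) (n + i * t + t) := by
      intro i hi
      rw [hU]
      exact if_pos hi
    have hU2 : ∀ i, ¬ i < K → U i = ∅ := by
      intro i hi
      rw [hU]
      exact if_neg hi
    have hd1 : ∀ i, i < K → Metric.diam (U i) = t := by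
      intro i hi
      rw [hU1 i hi, Real.diam_Icc (by linarith)]
      ring
    have hd2 : ∀ i, ¬ i < K → Metric.diam (U i) = 0 := by
      intro i hi
      rw [hU2 i hi]
      exact Metric.diam_empty
    have hcov : Icc (n : ℝ) (n + 1) ⊆ ⋃ i, U i := by
      intro x hx
      have h1 : 0 ≤ (x - n) / t := div_nonneg (by linarith [hx.1]) ht0.le
      obtain ⟨i, hi⟩ : ∃ i : ℕ, i = ⌊(x - n) / t⌋₊ := ⟨_, rfl⟩
      have h2 : (i : ℝ) ≤ (x - n) / t := hi ▸ Nat.floor_le h1
      have h3 : (x - n) / t < i + 1 := hi ▸ Nat.lt_floor_add_one _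
      have h4 : (x - n) / t ≤ 1 / t := div_le_div_of_nonneg_right (by linarith [hx.2]) ht0.le
      have h5 : i < K := by
        have h6 : (i : ℝ) ≤ ⌈1 / t⌉₊ := h2.trans (h4.trans (Nat.le_ceil _))
        have h7 : i ≤ ⌈1 / t⌉₊ := by exact_mod_cast h6
        omega
      rw [le_div_iff₀ ht0] at h2
      rw [div_lt_iff₀ ht0] at h3
      rw [mem_iUnion]
      refine ⟨i, ?_⟩
      rw [hU1 i h5]
      constructor <;> linarith
    have hbd : ∀ i, Bornology.IsBounded (U i) ∧ Metric.diam (U i) ≤ δ := by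
      intro i
      by_cases hi : i < K
      · refine ⟨?_, ?_⟩
        · rw [hU1 i hi]
          exact Metric.isBounded_Icc _ _
        · rw [hd1 i hi]
          exact htδ
      · refine ⟨?_, ?_⟩
        · rw [hU2 i hi]
          exact Bornology.isBounded_empty
        · rw [hd2 i hi]
          exact hδ.le
    unfold Hd
    refine (iInf₂_le U hcov).trans ((iInf_le _ hbd).trans ?_)
    have hsum : ∑' i, ENNReal.ofReal (f (Metric.diam (U i))) =
        ∑ i ∈ Finset.range K, ENNReal.ofReal (f (Metric.diam (U i))) := by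
      apply tsum_eq_sum
      intro i hi
      rw [Finset.mem_range] at hi
      rw [hd2 i hi, hf.zero, ENNReal.ofReal_zero]
    rw [hsum]
    have hsum2 : ∑ i ∈ Finset.range K, ENNReal.ofReal (f (Metric.diam (U i))) =
        ∑ i ∈ Finset.range K, ENNReal.ofReal (f t) := by
      apply Finset.sum_congr rfl
      intro i hi
      rw [hd1 i (Finset.mem_range.1 hi)]
    rw [hsum2, ← ENNReal.ofReal_sum_of_nonneg (fun _ _ => (hf.pos t ht0).le)]
    apply ENNReal.ofReal_le_ofReal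
    rw [Finset.sum_const, Finset.card_range, nsmul_eq_mul]
    have h8 : (0 : ℝ) ≤ K := Nat.cast_nonneg K
    calc (K : ℝ) * f t ≤ K * (C * t) := mul_le_mul_of_nonneg_left ht2.le h8
      _ = C * (K * t) := by ring
      _ ≤ C * 3 := mul_le_mul_of_nonneg_left hK1 hC0.le
      _ = 3 * C := by ring
  exact hb.trans_lt ENNReal.ofReal_lt_top

end Pool.Agent.J6H18.GS
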