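import Pool.Agent.J6H18.GS.Stm

/-!
# Module EN: an injective Borel map with a prescribed modulus for the inverse of one coordinate
-/

set_option autoImplicit false

open MeasureTheory Filter Set
open scoped Topology ENNReal

namespace Pool.Agent.J6H18.GS

namespace ENaux

/-- the binary approximations -/
noncomputable def a (m : ℕ → ℕ) (k : ℕ) (x : ℝ) : ℤ := ⌊(2 : ℝ) ^ m k * x⌋

/-- the scales -/
noncomputable def q (m : ℕ → ℕ) (k : ℕ) : ℝ := ((2 : ℝ) ^ m k * 4 ^ k)⁻¹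

/-- the digit of `c`, as a real number -/
noncomputable def bt (b : Bool) : ℝ := if b then 1 else 0

/-- the terms -/
noncomputable def t (m w : ℕ → ℕ) (c : ℕ → Bool) (x : ℝ) (k : ℕ) : ℝ :=
  (4 * ((a m (k + 1) x : ℝ) - 2 ^ w k * (a m k x : ℝ)) + 2 * bt (c k)) * q m (k + 1)

theorem bt_bd (b : Bool) : 0 ≤ bt b ∧ bt b ≤ 1 := by
  unfold bt
  cases b <;> norm_num

theorem bt_sub (b b' : Bool) : -1 ≤ bt b - bt b' ∧ bt b - bt b' ≤ 1 := by
  unfold bt
  cases b <;> cases b' <;> norm_num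

theorem bt_ne {b b' : Bool} (h : b ≠ b') : bt b - bt b' = 1 ∨ bt b - bt b' = -1 := by
  unfold bt
  cases b <;> cases b' <;> simp at h ⊢

theorem q_pos (m : ℕ → ℕ) (k : ℕ) : 0 < q m k := by unfold q; positivity

section
variable {m w : ℕ → ℕ} (hm : ∀ k, m (k + 1) = m k + w k)

include hm in
theorem q_succ (k : ℕ) : 4 * 2 ^ w k * q m (k + 1) = q m k := by
  unfold q
  rw [hm, pow_add, pow_succ]
  field_simp

theorem q_le (k : ℕ) : q m k ≤ (1 / 4) ^ k := by
  unfold q
  rw [mul_inv, one_div, inv_pow]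
  exact mul_le_of_le_one_left (by positivity) (inv_le_one_of_one_le₀ (one_le_pow₀ (by norm_num)))

theorem q_le2 (k : ℕ) : q m k ≤ (1 / 2) ^ m k := by
  unfold q
  rw [mul_inv, one_div, inv_pow]
  exact mul_le_of_le_one_right (by positivity) (inv_le_one_of_one_le₀ (one_le_pow₀ (by norm_num)))

include hm in
theorem digit (k : ℕ) (x : ℝ) : 0 ≤ (a m (k + 1) x : ℝ) - 2 ^ w k * (a m k x : ℝ) ∧
    (a m (k + 1) x : ℝ) - 2 ^ w k * (a m k x : ℝ) ≤ 2 ^ w k - 1 := by
  have hp : (0 : ℝ) < 2 ^ w k := by positivity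
  have e : a m (k + 1) x = ⌊(2 : ℝ) ^ w k * ((2 : ℝ) ^ m k * x)⌋ := by
    unfold a
    rw [hm, pow_add]
    congr 1
    ring
  have h1 : (2 : ℤ) ^ w k * a m k x ≤ a m (k + 1) x := by
    rw [e]
    refine Int.le_floor.2 ?_
    push_cast
    exact mul_le_mul_of_nonneg_left (Int.floor_le _) hp.le
  have h2 : a m (k + 1) x < (2 : ℤ) ^ w k * (a m k x + 1) := by
    rw [e]
    refine Int.floor_lt.2 ?_
    push_cast
    exact mul_lt_mul_of_pos_left (Int.lt_floor_add_one _) hp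
  have h3 : a m (k + 1) x ≤ (2 : ℤ) ^ w k * (a m k x + 1) - 1 := Int.le_sub_one_of_lt h2
  have h1' : (2 : ℝ) ^ w k * (a m k x : ℝ) ≤ (a m (k + 1) x : ℝ) := by exact_mod_cast h1
  have h3' : (a m (k + 1) x : ℝ) ≤ (2 : ℝ) ^ w k * ((a m k x : ℝ) + 1) - 1 := by exact_mod_cast h3
  constructor
  · linarith
  · linarith

include hm in
theorem t_nonneg (c : ℕ → Bool) (x : ℝ) (k : ℕ) : 0 ≤ t m w c x k := by
  have h1 := (digit hm k x).1
  have h2 := (bt_bd (c k)).1
  exact mul_nonneg (by linarith) (q_pos m _).le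

include hm in
theorem t_le (c : ℕ → Bool) (x : ℝ) (k : ℕ) : t m w c x k ≤ q m k - q m (k + 1) := by
  have h1 := (digit hm k x).2
  have h2 := (bt_bd (c k)).2
  have h3 := q_pos m (k + 1)
  have h4 := q_succ hm k
  have h5 : t m w c x k ≤ (4 * (2 ^ w k - 1) + 2) * q m (k + 1) :=
    mul_le_mul_of_nonneg_right (by linarith) h3.le
  have h6 : (4 * ((2 : ℝ) ^ w k - 1) + 2) * q m (k + 1) = q m k - 2 * q m (k + 1) := by
    rw [← h4]
    ring
  linarith

include hm in
theorem t_summable (c : ℕ → Bool) (x : ℝ) : Summable (t m w c x) := by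
  refine Summable.of_nonneg_of_le (t_nonneg hm c x) (fun k => ?_)
    (summable_geometric_of_lt_one (r := (1 / 4 : ℝ)) (by norm_num) (by norm_num))
  have h1 := t_le hm c x k
  have h2 := q_pos m (k + 1)
  have h3 := q_le (m := m) k
  linarith

include hm in
theorem tail (c : ℕ → Bool) (x : ℝ) (k : ℕ) :
    0 ≤ ∑' j, t m w c x (j + k) ∧ ∑' j, t m w c x (j + k) ≤ q m k := by
  refine ⟨tsum_nonneg fun j => t_nonneg hm c x _, ?_⟩
  refine Real.tsum_le_of_sum_range_le (fun j => t_nonneg hm c x _) fun n => ?_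
  have h : ∑ i ∈ Finset.range n, t m w c x (i + k) ≤ q m k - q m (n + k) := by
    induction n with
    | zero => simp
    | succ n ih =>
      rw [Finset.sum_range_succ]
      have h1 := t_le hm c x (n + k)
      have e : n + 1 + k = n + k + 1 := by ring
      rw [e]
      linarith
  have h2 := q_pos m (n + k)
  linarith

theorem close (k : ℕ) (x x' : ℝ) :
    |x - x'| * 2 ^ m k ≤ |(a m k x : ℝ) - (a m k x' : ℝ)| + 1 := by
  have h1 := Int.floor_le ((2 : ℝ) ^ m k * x)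
  have h2 := Int.lt_floor_add_one ((2 : ℝ) ^ m k * x)
  have h3 := Int.floor_le ((2 : ℝ) ^ m k * x')
  have h4 := Int.lt_floor_add_one ((2 : ℝ) ^ m k * x')
  have hp : (0 : ℝ) < 2 ^ m k := by positivity
  have e : |x - x'| * 2 ^ m k = |(2 : ℝ) ^ m k * x - (2 : ℝ) ^ m k * x'| := by
    rw [← mul_sub, abs_mul, abs_of_pos hp, mul_comm]
  have h5 := le_abs_self ((a m k x : ℝ) - (a m k x' : ℝ))
  have h6 := neg_abs_le ((a m k x : ℝ) - (a m k x' : ℝ))
  unfold a at *
  rw [e, abs_le]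
  constructor <;> linarith

theorem comb {D β : ℝ} (h : (D ≤ -1 ∨ 1 ≤ D) ∨ (D = 0 ∧ (β = 1 ∨ β = -1)))
    (hβ : -1 ≤ β ∧ β ≤ 1) : |D| + 1 ≤ 2 * (|4 * D + 2 * β| - 1) := by
  obtain ⟨hβ1, hβ2⟩ := hβ
  rcases h with (h | h) | ⟨rfl, h⟩
  · rw [abs_of_neg (by linarith : D < 0), abs_of_neg (by linarith : 4 * D + 2 * β < 0)]
    linarith
  · rw [abs_of_pos (by linarith : 0 < D), abs_of_pos (by linarith : 0 < 4 * D + 2 * β)]
    linarith
  · rcases h with rfl | rfl <;> norm_num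

include hm in
/-- the estimate at the first level where the two points differ -/
theorem level {c c' : ℕ → Bool} {x x' : ℝ} {k : ℕ} (hk : ∀ j ≤ k, a m j x = a m j x')
    (hc : ∀ j < k, c j = c' j) (hne : a m (k + 1) x ≠ a m (k + 1) x' ∨ c k ≠ c' k) :
    |∑' j, t m w c x j - ∑' j, t m w c' x' j| ≤ q m k ∧
    0 < |∑' j, t m w c x j - ∑' j, t m w c' x' j| ∧
    |x - x'| ≤ 2 * 4 ^ (k + 1) * |∑' j, t m w c x j - ∑' j, t m w c' x' j| := by
  have hs := t_summable hm c x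
  have hs' := t_summable hm c' x'
  have e0 : ∑ j ∈ Finset.range k, t m w c x j = ∑ j ∈ Finset.range k, t m w c' x' j := by
    refine Finset.sum_congr rfl fun j hj => ?_
    have hj' := Finset.mem_range.1 hj
    unfold t
    rw [hk (j + 1) (by omega), hk j (by omega), hc j hj']
  have e1 := hs.sum_add_tsum_nat_add k
  have e1' := hs'.sum_add_tsum_nat_add k
  have e2 := hs.sum_add_tsum_nat_add (k + 1)
  have e2' := hs'.sum_add_tsum_nat_add (k + 1)
  rw [Finset.sum_range_succ] at e2 e2'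
  obtain ⟨t1, t2⟩ := tail hm c x k
  obtain ⟨t1', t2'⟩ := tail hm c' x' k
  obtain ⟨t3, t4⟩ := tail hm c x (k + 1)
  obtain ⟨t3', t4'⟩ := tail hm c' x' (k + 1)
  have hq := q_pos m (k + 1)
  have e3 : t m w c x k - t m w c' x' k =
      (4 * ((a m (k + 1) x : ℝ) - (a m (k + 1) x' : ℝ)) + 2 * (bt (c k) - bt (c' k))) *
        q m (k + 1) := by
    unfold t
    rw [hk k le_rfl]
    ring
  set Z : ℝ := ∑' j, t m w c x j - ∑' j, t m w c' x' j with hZ
  set N : ℝ := 4 * ((a m (k + 1) x : ℝ) - (a m (k + 1) x' : ℝ)) + 2 * (bt (c k) - bt (c' k)) with hN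
  have hcomb : |(a m (k + 1) x : ℝ) - (a m (k + 1) x' : ℝ)| + 1 ≤ 2 * (|N| - 1) := by
    refine comb ?_ (bt_sub _ _)
    rcases lt_trichotomy (a m (k + 1) x) (a m (k + 1) x') with h | h | h
    · left; left
      have h' : a m (k + 1) x + 1 ≤ a m (k + 1) x' := h
      have h'' : (a m (k + 1) x : ℝ) + 1 ≤ (a m (k + 1) x' : ℝ) := by exact_mod_cast h'
      linarith
    · right
      rcases hne with h1 | h1
      · exact absurd h h1
      · exact ⟨by rw [h, sub_self], bt_ne h1⟩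
    · left; right
      have h' : a m (k + 1) x' + 1 ≤ a m (k + 1) x := h
      have h'' : (a m (k + 1) x' : ℝ) + 1 ≤ (a m (k + 1) x : ℝ) := by exact_mod_cast h'
      linarith
  have hZN : (|N| - 1) * q m (k + 1) ≤ |Z| := by
    have h1 : Z = N * q m (k + 1) + (∑' j, t m w c x (j + (k + 1)) -
        ∑' j, t m w c' x' (j + (k + 1))) := by
      rw [← e3, hZ, ← e2, ← e2', e0]
      ring
    have h2 : |∑' j, t m w c x (j + (k + 1)) - ∑' j, t m w c' x' (j + (k + 1))| ≤ q m (k + 1) := by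
      rw [abs_le]
      constructor <;> linarith
    have h3 : |N * q m (k + 1)| = |N| * q m (k + 1) := by rw [abs_mul, abs_of_pos hq]
    have h4 : |N * q m (k + 1)| ≤ |Z| +
        |∑' j, t m w c x (j + (k + 1)) - ∑' j, t m w c' x' (j + (k + 1))| := by
      have h5 : N * q m (k + 1) = Z - (∑' j, t m w c x (j + (k + 1)) -
        ∑' j, t m w c' x' (j + (k + 1))) := by rw [h1]; ring
      rw [h5]
      exact abs_sub _ _
    rw [h3] at h4
    linarith
  have habs := abs_nonneg ((a m (k + 1) x : ℝ) - (a m (k + 1) x' : ℝ))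
  refine ⟨?_, ?_, ?_⟩
  · have h1 : Z = ∑' j, t m w c x (j + k) - ∑' j, t m w c' x' (j + k) := by
      rw [hZ, ← e1, ← e1', e0]
      ring
    rw [h1, abs_le]
    constructor <;> linarith
  · have h1 : 0 < |N| - 1 := by linarith
    exact (mul_pos h1 hq).trans_le hZN
  · have h1 := close (m := m) (k + 1) x x'
    have hp : (0 : ℝ) < 2 ^ m (k + 1) := by positivity
    have h2 : |x - x'| * 2 ^ m (k + 1) ≤ 2 * (|N| - 1) := h1.trans hcomb
    have h3 : |x - x'| ≤ 2 * (|N| - 1) / 2 ^ m (k + 1) := by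
      rw [le_div_iff₀ hp]
      exact h2
    have h4 : 2 * (|N| - 1) / 2 ^ m (k + 1) = 2 * 4 ^ (k + 1) * ((|N| - 1) * q m (k + 1)) := by
      unfold q
      field_simp
    rw [h4] at h3
    exact h3.trans (mul_le_mul_of_nonneg_left hZN (by positivity))

theorem a_zero (h0 : m 0 = 0) {x : ℝ} (hx : x ∈ Ico (0 : ℝ) 1) : a m 0 x = 0 := by
  unfold a
  rw [h0, pow_zero, one_mul]
  exact Int.floor_eq_zero_iff.2 hx

/-- two different points differ at some level -/
theorem separate (hmk : ∀ k, k ≤ m k) {c c' : ℕ → Bool} {x x' : ℝ} (hne : c ≠ c' ∨ x ≠ x') :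
    ∃ k, a m (k + 1) x ≠ a m (k + 1) x' ∨ c k ≠ c' k := by
  by_contra hcon
  push Not at hcon
  rcases hne with h | h
  · exact h (funext fun k => (hcon k).2)
  · have hpos : 0 < |x - x'| := abs_pos.2 (sub_ne_zero.2 h)
    obtain ⟨k, hk⟩ := exists_pow_lt_of_lt_one hpos (show (1 / 2 : ℝ) < 1 by norm_num)
    have h1 := close (m := m) (k + 1) x x'
    rw [(hcon k).1, sub_self, abs_zero, zero_add] at h1
    have h2 : (2 : ℝ) ^ k ≤ 2 ^ m (k + 1) :=
      pow_le_pow_right₀ (by norm_num) ((Nat.le_succ k).trans (hmk (k + 1)))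
    have h3 : |x - x'| * 2 ^ k ≤ 1 := (mul_le_mul_of_nonneg_left h2 hpos.le).trans h1
    have h4 : (1 : ℝ) < |x - x'| * 2 ^ k := by
      rw [one_div, inv_pow, inv_lt_iff_one_lt_mul₀ (by positivity)] at hk
      exact hk
    linarith

end

theorem exists_tau {f : ℝ → ℝ} (hf : IsGauge f) (hlim : Tendsto (fun t => f t / t) (𝓝[>] 0) atTop)
    (A : ℝ) : ∃ τ : ℝ, 0 < τ ∧ ∀ s, 0 ≤ s → s ≤ τ → A * s ≤ f s := by
  have h1 := hlim.eventually_ge_atTop A
  rw [eventually_nhdsWithin_iff, Metric.eventually_nhds_iff] at h1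
  obtain ⟨ε, hε, h2⟩ := h1
  refine ⟨ε / 2, by positivity, fun s hs0 hs => ?_⟩
  rcases hs0.lt_or_eq with h | h
  · have h3 := h2 (y := s) (by rw [Real.dist_eq, sub_zero, abs_of_pos h]; linarith) h
    rwa [le_div_iff₀ h] at h3
  · rw [← h, hf.zero, mul_zero]

end ENaux

open ENaux in
theorem t_EN : S_EN := by
  intro f hf hlim
  have hτ : ∀ k : ℕ, ∃ τ : ℝ, 0 < τ ∧ ∀ s, 0 ≤ s → s ≤ τ → 2 * 4 ^ (k + 1) * s ≤ f s :=
    fun k => exists_tau hf hlim _
  choose τ hτ0 hτ1 using hτ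
  have hn : ∀ k : ℕ, ∃ n : ℕ, (1 / 2 : ℝ) ^ n < τ k := fun k =>
    exists_pow_lt_of_lt_one (hτ0 k) (by norm_num)
  choose n hn using hn
  obtain ⟨w, hw⟩ : ∃ w : ℕ → ℕ, ∀ k, w k = n (k + 1) + 1 := ⟨fun k => n (k + 1) + 1, fun _ => rfl⟩
  obtain ⟨m, hm0, hm⟩ : ∃ m : ℕ → ℕ, m 0 = 0 ∧ ∀ k, m (k + 1) = m k + w k :=
    ⟨fun k => ∑ i ∈ Finset.range k, w i, by simp, fun k => Finset.sum_range_succ _ _⟩
  have hmk : ∀ k, k ≤ m k := by
    intro k
    induction k with
    | zero => omega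
    | succ k ih =>
      rw [hm, hw]
      omega
  have hmτ : ∀ k, (1 / 2 : ℝ) ^ m (k + 1) ≤ τ (k + 1) := by
    intro k
    refine le_trans ?_ (hn (k + 1)).le
    refine pow_le_pow_of_le_one (by norm_num) (by norm_num) ?_
    rw [hm, hw]
    omega
  -- the level at which two points differ
  have hlev : ∀ p p' : (ℕ → Bool) × (Ico (0 : ℝ) 1), p ≠ p' → ∃ k : ℕ,
      |∑' j, t m w p.1 p.2 j - ∑' j, t m w p'.1 p'.2 j| ≤ q m k ∧
      0 < |∑' j, t m w p.1 p.2 j - ∑' j, t m w p'.1 p'.2 j| ∧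
      |(p.2 : ℝ) - (p'.2 : ℝ)| ≤
        2 * 4 ^ (k + 1) * |∑' j, t m w p.1 p.2 j - ∑' j, t m w p'.1 p'.2 j| := by
    intro p p' hpp
    have hne : p.1 ≠ p'.1 ∨ (p.2 : ℝ) ≠ (p'.2 : ℝ) := by
      by_contra hcon
      push Not at hcon
      exact hpp (Prod.ext hcon.1 (Subtype.ext hcon.2))
    classical
    have hex := separate (m := m) hmk hne
    refine ⟨Nat.find hex, level hm (fun j hj => ?_) (fun j hj => ?_) (Nat.find_spec hex)⟩
    · rcases j with _ | j
      · rw [a_zero hm0 p.2.2, a_zero hm0 p'.2.2]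
      · have h1 := Nat.find_min hex (m := j) (by omega)
        push Not at h1
        exact h1.1
    · have h1 := Nat.find_min hex hj
      push Not at h1
      exact h1.2
  refine ⟨fun p => ∑' j, t m w p.1 p.2 j, τ 0, hτ0 0, ?_, ?_, ?_⟩
  · -- measurability
    have hterm : ∀ j, Measurable (fun p : (ℕ → Bool) × (Ico (0 : ℝ) 1) => t m w p.1 p.2 j) := by
      intro j
      have hx : Measurable (fun p : (ℕ → Bool) × (Ico (0 : ℝ) 1) => (p.2 : ℝ)) :=
        measurable_subtype_coe.comp measurable_snd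
      have ha : ∀ k, Measurable (fun p : (ℕ → Bool) × (Ico (0 : ℝ) 1) => (a m k p.2 : ℝ)) := by
        intro k
        exact (measurable_from_top (f := fun z : ℤ => (z : ℝ))).comp
          (Int.measurable_floor.comp (hx.const_mul _))
      have hb : Measurable (fun p : (ℕ → Bool) × (Ico (0 : ℝ) 1) => bt (p.1 j)) :=
        (measurable_from_top (f := bt)).comp ((measurable_pi_apply j).comp measurable_fst)
      exact ((((ha (j + 1)).sub ((ha j).const_mul _)).const_mul 4).add (hb.const_mul 2)).mul_const _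
    refine measurable_of_tendsto_metrizable (f := fun N (p : (ℕ → Bool) × (Ico (0 : ℝ) 1)) =>
      ∑ j ∈ Finset.range N, t m w p.1 p.2 j)
      (fun N => Finset.measurable_fun_sum _ fun j _ => hterm j) ?_
    rw [tendsto_pi_nhds]
    intro p
    exact (t_summable hm p.1 p.2).hasSum.tendsto_sum_nat
  · intro p p' hpp
    by_contra hne
    obtain ⟨k, -, h2, -⟩ := hlev p p' hne
    simp only at hpp
    rw [hpp, sub_self, abs_zero] at h2
    exact lt_irrefl _ h2
  · intro p p' hd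
    by_cases hne : p = p'
    · rw [hne, sub_self, sub_self, abs_zero, hf.zero]
    · obtain ⟨k, h1, h2, h3⟩ := hlev p p' hne
      refine h3.trans (hτ1 k _ (abs_nonneg _) ?_)
      rcases k with _ | k
      · exact hd
      · exact h1.trans ((q_le2 (m := m) (k + 1)).trans (hmτ k))

end Pool.Agent.J6H18.GS
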