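import Pool.Agent.J6H18.GS.Stm

set_option autoImplicit false

/-!
# GS-F1: the distribution function of a finite measure without atoms
-/

open MeasureTheory Filter Set
open scoped Topology ENNReal

namespace Pool.Agent.J6H18.GS

theorem F1_interval (ν : Measure ℝ) [IsFiniteMeasure ν] [NullSingletonClass ν] (a b : ℝ) :
    ν ((fun x => (ν (Iic x)).toReal) ⁻¹' (Icc a b)) ≤ ENNReal.ofReal (b - a) := by
  have hmono : Monotone (fun x => (ν (Iic x)).toReal) := fun x y hxy =>
    ENNReal.toReal_mono (measure_ne_top _ _) (measure_mono (Iic_subset_Iic.2 hxy))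
  have hJ : MeasurableSet ((fun x => (ν (Iic x)).toReal) ⁻¹' (Icc a b)) :=
    hmono.measurable measurableSet_Icc
  rw [hJ.measure_eq_iSup_isCompact_of_ne_top (measure_ne_top _ _)]
  refine iSup₂_le fun K hK => iSup_le fun hc => ?_
  rcases K.eq_empty_or_nonempty with rfl | hne
  · simp
  have hx := hc.sInf_mem hne
  have hy := hc.sSup_mem hne
  have hxy : sInf K ≤ sSup K := csInf_le_csSup hne hc.bddBelow hc.bddAbove
  have h1 : K ⊆ Icc (sInf K) (sSup K) := fun z hz =>
    ⟨csInf_le hc.bddBelow hz, le_csSup hc.bddAbove hz⟩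
  have h2 : Icc (sInf K) (sSup K) = {sInf K} ∪ Ioc (sInf K) (sSup K) := by
    rw [singleton_union, Ioc_insert_left hxy]
  have h3 : Ioc (sInf K) (sSup K) = Iic (sSup K) \ Iic (sInf K) := by
    rw [Iic_sdiff_Iic]
  calc ν K ≤ ν (Icc (sInf K) (sSup K)) := measure_mono h1
    _ ≤ ν {sInf K} + ν (Ioc (sInf K) (sSup K)) := by
        rw [h2]
        exact measure_union_le _ _
    _ = ν (Iic (sSup K)) - ν (Iic (sInf K)) := by
        rw [measure_singleton, zero_add, h3, measure_sdiff (Iic_subset_Iic.2 hxy)
          measurableSet_Iic.nullMeasurableSet (measure_ne_top _ _)]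
    _ = ENNReal.ofReal ((ν (Iic (sSup K))).toReal - (ν (Iic (sInf K))).toReal) := by
        rw [ENNReal.ofReal_sub _ ENNReal.toReal_nonneg, ENNReal.ofReal_toReal (measure_ne_top _ _),
          ENNReal.ofReal_toReal (measure_ne_top _ _)]
    _ ≤ ENNReal.ofReal (b - a) := by
        refine ENNReal.ofReal_le_ofReal ?_
        have h4 := (hK hx).1
        have h5 := (hK hy).2
        simp only at h4 h5
        linarith

theorem t_F1 : S_F1 := by
  intro ν _ _
  have hmono : Monotone (fun x => (ν (Iic x)).toReal) := fun x y hxy =>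
    ENNReal.toReal_mono (measure_ne_top _ _) (measure_mono (Iic_subset_Iic.2 hxy))
  refine ⟨fun x => (ν (Iic x)).toReal, fun N hN => ?_⟩
  have h1 : Measure.map (fun x => (ν (Iic x)).toReal) ν ≤ (μH[1] : Measure ℝ) := by
    refine Measure.le_hausdorffMeasure 1 _ 1 zero_lt_one fun s hs => ?_
    rw [ENNReal.rpow_one]
    have hb : Bornology.IsBounded s := by
      rw [Metric.isBounded_iff_ediam_ne_top]
      exact ne_top_of_le_ne_top ENNReal.one_ne_top hs
    rcases s.eq_empty_or_nonempty with rfl | hne
    · simp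
    rw [Real.ediam_eq hb]
    have hsub : s ⊆ Icc (sInf s) (sSup s) := fun z hz =>
      ⟨csInf_le hb.bddBelow hz, le_csSup hb.bddAbove hz⟩
    refine (measure_mono hsub).trans ?_
    rw [Measure.map_apply hmono.measurable measurableSet_Icc]
    exact F1_interval ν _ _
  rw [hausdorffMeasure_real] at h1
  refine le_antisymm ?_ zero_le
  exact (Measure.le_map_apply hmono.measurable.aemeasurable N).trans ((h1 N).trans hN.le)

end Pool.Agent.J6H18.GS
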