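import Pool.Agent.J6H18.GS.Main

set_option autoImplicit false

/-! # Project GS: the final deductions -/

open MeasureTheory Filter Set
open scoped Topology ENNReal Cardinal

namespace Pool.Agent.J6H18.GS

/-- singletons are `H^f`-null -/
theorem H_singleton (f : ℝ → ℝ) (hf : IsGauge f) (x : ℝ) : H f {x} = 0 := by
  unfold H
  refine le_antisymm (iSup₂_le fun δ hδ => ?_) bot_le
  unfold Hd
  refine iInf_le_of_le (fun _ => {x}) (iInf_le_of_le ?_ (iInf_le_of_le ?_ ?_))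
  · intro y hy
    exact mem_iUnion.2 ⟨0, hy⟩
  · intro i
    refine ⟨Bornology.isBounded_singleton, ?_⟩
    rw [Metric.diam_singleton]
    exact hδ.le
  · simp [hf.zero]

/-- a universally null set has no subset of finite positive measure -/
theorem zero_or_top (hHM : S_HM) (f : ℝ → ℝ) (hf : IsGauge f) (A : Set ℝ)
    (hA : ∀ (ν : Measure ℝ) [IsFiniteMeasure ν] [NullSingletonClass ν], ν A = 0) (A0 : Set ℝ) (h0 : A0 ⊆ A) :
    H f A0 = 0 ∨ H f A0 = ⊤ := by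
  by_contra hc
  push Not at hc
  obtain ⟨hc0, hct⟩ := hc
  obtain ⟨μ, hμ⟩ : ∃ μ : Measure ℝ, μ = Measure.mkMetric (fun d : ℝ≥0∞ => ENNReal.ofReal (f d.toReal)) := ⟨_, rfl⟩
  have hH : ∀ B, H f B = μ B := by
    intro B
    rw [hμ]
    exact hHM f hf B
  haveI : NullSingletonClass μ := ⟨fun x => by rw [← hH]; exact H_singleton f hf x⟩
  haveI : IsFiniteMeasure (μ.restrict A0) := by
    refine ⟨?_⟩
    rw [Measure.restrict_apply MeasurableSet.univ, univ_inter, ← hH]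
    exact lt_top_iff_ne_top.2 hct
  have h1 := hA (μ.restrict A0)
  have h2 := measure_mono_null h0 h1
  rw [Measure.restrict_apply_self, ← hH] at h2
  exact hc0 h2

/-- the positive direction -/
theorem pos_dir (hHM : S_HM) (hCV : S_CV) (f : ℝ → ℝ) (hf : IsGauge f)
    (hft : ¬ Tendsto (fun t => f t / t) (𝓝[>] 0) atTop) (A : Set ℝ) (hA : 0 < H f A) :
    ∃ A0 ⊆ A, 0 < H f A0 ∧ H f A0 < ⊤ := by
  obtain ⟨μ, hμ⟩ : ∃ μ : Measure ℝ, μ = Measure.mkMetric (fun d : ℝ≥0∞ => ENNReal.ofReal (f d.toReal)) := ⟨_, rfl⟩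
  have hH : ∀ B, H f B = μ B := by
    intro B
    rw [hμ]
    exact hHM f hf B
  obtain ⟨n, hn⟩ : ∃ n : ℤ, μ (A ∩ Icc (n : ℝ) (n + 1)) ≠ 0 := by
    by_contra h
    push Not at h
    apply hA.ne'
    rw [hH]
    have e : A ⊆ ⋃ n : ℤ, A ∩ Icc (n : ℝ) (n + 1) := by
      intro x hx
      exact mem_iUnion.2 ⟨⌊x⌋, hx, Int.floor_le x, (Int.lt_floor_add_one x).le⟩
    exact measure_mono_null e (measure_iUnion_null h)
  refine ⟨A ∩ Icc (n : ℝ) (n + 1), inter_subset_left, ?_, ?_⟩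
  · rw [hH]
    exact pos_iff_ne_zero.2 hn
  · refine lt_of_le_of_lt ?_ (hCV f hf hft n)
    rw [hH, hH]
    exact measure_mono inter_subset_right

/-- the gauge `√t` -/
theorem isGauge_sqrt : IsGauge Real.sqrt where
  mono := fun _ _ _ _ h => Real.sqrt_le_sqrt h
  rightCont := fun _ _ => Real.continuous_sqrt.continuousWithinAt
  zero := Real.sqrt_zero
  pos := fun _ ht => Real.sqrt_pos.2 ht

theorem tendsto_sqrt : Tendsto (fun t : ℝ => Real.sqrt t / t) (𝓝[>] 0) atTop := by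
  have h1 : Tendsto (fun t : ℝ => Real.sqrt t) (𝓝[>] 0) (𝓝[>] 0) := by
    refine tendsto_nhdsWithin_iff.2 ⟨?_, ?_⟩
    · have := (Real.continuous_sqrt.tendsto 0).mono_left (nhdsWithin_le_nhds (s := Ioi (0 : ℝ)))
      rwa [Real.sqrt_zero] at this
    · filter_upwards [self_mem_nhdsWithin] with t ht
      exact Real.sqrt_pos.2 ht
  have h2 := tendsto_inv_nhdsGT_zero.comp h1
  refine h2.congr fun t => ?_
  show (Real.sqrt t)⁻¹ = Real.sqrt t / t
  rw [Real.sqrt_div_self', one_div]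

/-- the final theorem -/
theorem final (hHM : S_HM) (hF1 : S_F1) (hEN : S_EN) (hWW : S_WW) (hCV : S_CV) :
    (∃ f : ℝ → ℝ, IsGauge f ∧ ∃ A : Set ℝ, 0 < H f A ∧ ∀ A0 ⊆ A, H f A0 = 0 ∨ H f A0 = ⊤) ∧
    (∀ f : ℝ → ℝ, IsGauge f →
      ((∀ A : Set ℝ, 0 < H f A → ∃ A0 ⊆ A, 0 < H f A0 ∧ H f A0 < ⊤) ↔
        ¬ Tendsto (fun t => f t / t) (𝓝[>] 0) atTop)) ∧
    ∀ f : ℝ → ℝ, IsGauge f → Tendsto (fun t => f t / t) (𝓝[>] 0) atTop →
      ∃ A : Set ℝ, H f A = ⊤ ∧ (∀ A0 ⊆ A, H f A0 = 0 ∨ H f A0 = ⊤) ∧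
        ∀ (ν : Measure ℝ) [IsFiniteMeasure ν] [NullSingletonClass ν], ν A = 0 := by
  have h3 : ∀ f : ℝ → ℝ, IsGauge f → Tendsto (fun t => f t / t) (𝓝[>] 0) atTop →
      ∃ A : Set ℝ, H f A = ⊤ ∧ (∀ A0 ⊆ A, H f A0 = 0 ∨ H f A0 = ⊤) ∧
        ∀ (ν : Measure ℝ) [IsFiniteMeasure ν] [NullSingletonClass ν], ν A = 0 := by
    intro f hf hft
    obtain ⟨A, hA, hAν⟩ := exists_univNull hHM hF1 hEN hWW f hf hft
    refine ⟨A, ?_, zero_or_top hHM f hf A hAν, hAν⟩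
    rcases zero_or_top hHM f hf A hAν A Subset.rfl with h | h
    · exact absurd h hA.ne'
    · exact h
  refine ⟨?_, ?_, h3⟩
  · obtain ⟨A, h1, h2, _⟩ := h3 Real.sqrt isGauge_sqrt tendsto_sqrt
    exact ⟨Real.sqrt, isGauge_sqrt, A, by rw [h1]; exact ENNReal.zero_lt_top, h2⟩
  · intro f hf
    constructor
    · intro h hft
      obtain ⟨A, h1, h2, _⟩ := h3 f hf hft
      obtain ⟨A0, hA0, hp, ht⟩ := h A (by rw [h1]; exact ENNReal.zero_lt_top)
      rcases h2 A0 hA0 with h' | h'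
      · exact hp.ne' h'
      · exact ht.ne h'
    · intro hft A hA
      exact pos_dir hHM hCV f hf hft A hA

end Pool.Agent.J6H18.GS
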