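import Pool.Agent.J6H18.GS.Stm

/-!
# GS-HM: `H^f` is the outer measure `mkMetric` of Mathlib (helper98, for helper18)
-/

set_option autoImplicit false

open MeasureTheory Filter Set
open scoped Topology ENNReal

namespace Pool.Agent.J6H18.GS

theorem t_HM : S_HM := by
  intro f hf A
  rw [Measure.mkMetric_apply]
  apply le_antisymm
  · unfold H
    refine iSup₂_le fun δ hδ => ?_
    refine le_trans ?_ (le_iSup₂ (f := fun (r : ℝ≥0∞) (_ : 0 < r) => ⨅ (t : ℕ → Set ℝ)
      (_ : A ⊆ iUnion t) (_ : ∀ n, Metric.ediam (t n) ≤ r),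
      ∑' n, ⨆ _ : (t n).Nonempty, ENNReal.ofReal (f (Metric.ediam (t n)).toReal))
      (ENNReal.ofReal δ) (ENNReal.ofReal_pos.2 hδ))
    refine le_iInf fun t => le_iInf fun hA => le_iInf fun ht => ?_
    have hb : ∀ i, Bornology.IsBounded (t i) ∧ Metric.diam (t i) ≤ δ := by
      intro i
      have h1 : Metric.ediam (t i) ≠ ⊤ := ne_top_of_le_ne_top ENNReal.ofReal_ne_top (ht i)
      refine ⟨Metric.isBounded_iff_ediam_ne_top.2 h1, ?_⟩
      exact ENNReal.toReal_le_of_le_ofReal hδ.le (ht i)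
    unfold Hd
    refine (iInf₂_le_of_le t hA (iInf_le_of_le hb le_rfl)).trans ?_
    refine ENNReal.tsum_le_tsum fun i => ?_
    rcases (t i).eq_empty_or_nonempty with h | h
    · rw [h, Metric.diam_empty, hf.zero, ENNReal.ofReal_zero]
      exact zero_le
    · exact le_iSup_of_le h le_rfl
  · refine iSup₂_le fun r hr => ?_
    obtain ⟨δ, hδ, hδr⟩ : ∃ δ : ℝ, 0 < δ ∧ ENNReal.ofReal δ ≤ r := by
      refine ⟨(min r 1).toReal, ?_, ?_⟩
      · refine ENNReal.toReal_pos (lt_min hr one_pos).ne' ?_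
        exact ne_top_of_le_ne_top ENNReal.one_ne_top (min_le_right _ _)
      · rw [ENNReal.ofReal_toReal (ne_top_of_le_ne_top ENNReal.one_ne_top (min_le_right _ _))]
        exact min_le_left _ _
    unfold H
    refine le_trans ?_ (le_iSup₂ (f := fun (δ : ℝ) (_ : 0 < δ) => Hd f δ A) δ hδ)
    unfold Hd
    refine le_iInf fun t => le_iInf fun hA => le_iInf fun ht => ?_
    have hb : ∀ n, Metric.ediam (t n) ≤ r := by
      intro n
      have h1 : Metric.ediam (t n) ≠ ⊤ := Metric.isBounded_iff_ediam_ne_top.1 (ht n).1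
      refine le_trans ?_ hδr
      exact (ENNReal.le_ofReal_iff_toReal_le h1 hδ.le).2 (ht n).2
    refine (iInf₂_le_of_le t hA (iInf_le_of_le hb le_rfl)).trans ?_
    refine ENNReal.tsum_le_tsum fun i => ?_
    exact iSup_le fun _ => le_rfl

end Pool.Agent.J6H18.GS
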