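import Pool.Agent.J6H18.GS.Stm

set_option autoImplicit false

/-! # Project GS: the universally null set (Grzegorek type) -/

open MeasureTheory Filter Set
open scoped Topology ENNReal Cardinal

namespace Pool.Agent.J6H18.GS

/-- a set in `[0, 1)` of positive outer measure of the least possible cardinality -/
theorem exists_min : ∃ X : Set (Ico (0 : ℝ) 1), volume ((fun u : Ico (0 : ℝ) 1 => (u : ℝ)) '' X) ≠ 0 ∧
    ∀ S : Set ℝ, #S < #X → volume S = 0 := by
  obtain ⟨κ, ⟨S0, hS0, hS0v⟩, hmin⟩ := WellFounded.has_min (wellFounded_lt (α := Cardinal))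
    {κ : Cardinal | ∃ S : Set ℝ, #S = κ ∧ volume S ≠ 0} ⟨#(univ : Set ℝ), univ, rfl, by simp⟩
  have hmin' : ∀ S : Set ℝ, #S < κ → volume S = 0 := by
    intro S hS
    by_contra h
    exact hmin #S ⟨S, rfl, h⟩ hS
  obtain ⟨n, hn⟩ : ∃ n : ℤ, volume (S0 ∩ Ico (n : ℝ) (n + 1)) ≠ 0 := by
    by_contra h
    push Not at h
    apply hS0v
    have e : S0 ⊆ ⋃ n : ℤ, S0 ∩ Ico (n : ℝ) (n + 1) := by
      intro x hx
      exact mem_iUnion.2 ⟨⌊x⌋, hx, Int.floor_le x, Int.lt_floor_add_one x⟩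
    exact measure_mono_null e (measure_iUnion_null h)
  refine ⟨{u : Ico (0 : ℝ) 1 | (u : ℝ) + n ∈ S0}, ?_, ?_⟩
  · have e : ((fun u : Ico (0 : ℝ) 1 => (u : ℝ)) '' {u : Ico (0 : ℝ) 1 | (u : ℝ) + n ∈ S0}) =
        (fun h : ℝ => h + n) ⁻¹' (S0 ∩ Ico (n : ℝ) (n + 1)) := by
      ext x
      constructor
      · rintro ⟨u, hu, rfl⟩
        refine ⟨hu, ?_, ?_⟩
        · show (n : ℝ) ≤ (u : ℝ) + n
          linarith [u.2.1]
        · show (u : ℝ) + n < (n : ℝ) + 1
          linarith [u.2.2]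
      · rintro ⟨h1, h2, h3⟩
        refine ⟨⟨x, ?_, ?_⟩, h1, rfl⟩
        · have : (n : ℝ) ≤ x + n := h2
          linarith
        · have : x + n < (n : ℝ) + 1 := h3
          linarith
    rw [e, measure_preimage_add_right]
    exact hn
  · intro S hS
    apply hmin'
    refine lt_of_lt_of_le hS ?_
    rw [← hS0]
    refine Cardinal.mk_le_of_injective (f := fun u : {u : Ico (0 : ℝ) 1 | (u : ℝ) + n ∈ S0} =>
      (⟨((u : Ico (0 : ℝ) 1) : ℝ) + n, u.2⟩ : S0)) ?_
    intro u v huv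
    have := congrArg Subtype.val huv
    apply Subtype.ext
    apply Subtype.ext
    exact add_right_cancel this

/-- the universally null set of positive `H^f`-measure -/
theorem exists_univNull (hHM : S_HM) (hF1 : S_F1) (hEN : S_EN) (hWW : S_WW) (f : ℝ → ℝ) (hf : IsGauge f)
    (hft : Tendsto (fun t => f t / t) (𝓝[>] 0) atTop) :
    ∃ A : Set ℝ, 0 < H f A ∧ ∀ (ν : Measure ℝ) [IsFiniteMeasure ν] [NullSingletonClass ν], ν A = 0 := by
  classical
  obtain ⟨φ, δ, hδ, hφm, hφi, hφ⟩ := hEN f hf hft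
  obtain ⟨W, hWm, hW0, hW⟩ := hWW
  obtain ⟨X, hX, hXmin⟩ := exists_min
  obtain ⟨e⟩ : Nonempty (X ≃ (#X).ord.ToType) := Cardinal.eq.1 (Cardinal.mk_ord_toType _).symm
  -- initial segments
  have hseg : ∀ x : X, volume ((fun y : X => ((y : Ico (0 : ℝ) 1) : ℝ)) '' {y | e y ≤ e x}) = 0 := by
    intro x
    have e1 : ((fun y : X => ((y : Ico (0 : ℝ) 1) : ℝ)) '' {y | e y ≤ e x}) ⊆
        ((fun y : X => ((y : Ico (0 : ℝ) 1) : ℝ)) '' {y | e y < e x}) ∪ {((x : Ico (0 : ℝ) 1) : ℝ)} := by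
      rintro _ ⟨y, hy, rfl⟩
      rcases lt_or_eq_of_le (show e y ≤ e x from hy) with h | h
      · exact Or.inl ⟨y, h, rfl⟩
      · right
        rw [e.injective h]
        rfl
    refine measure_mono_null e1 (measure_union_null (hXmin _ ?_) (by simp))
    refine lt_of_le_of_lt Cardinal.mk_image_le ?_
    refine lt_of_le_of_lt ?_ (Cardinal.mk_Iio_toType_ord_lt (e x))
    refine Cardinal.mk_le_of_injective (f := fun y : {y | e y < e x} => (⟨e y, y.2⟩ : Iio (e x))) ?_
    intro u v huv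
    exact Subtype.ext (e.injective (congrArg Subtype.val huv))
  choose c hc using fun x : X => hW _ (hseg x)
  -- the set
  obtain ⟨z, hz⟩ : ∃ z : X → ℝ, z = fun x => φ (c x, (x : Ico (0 : ℝ) 1)) := ⟨_, rfl⟩
  refine ⟨range z, ?_, ?_⟩
  · -- positive measure
    have key : volume ((fun u : Ico (0 : ℝ) 1 => (u : ℝ)) '' X) ≤ Hd f δ (range z) := by
      unfold Hd
      refine le_iInf fun U => le_iInf fun hU => le_iInf fun hUd => ?_
      have e1 : ((fun u : Ico (0 : ℝ) 1 => (u : ℝ)) '' X) ⊆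
          ⋃ i, (fun x : X => ((x : Ico (0 : ℝ) 1) : ℝ)) '' {x | z x ∈ U i} := by
        rintro _ ⟨u, hu, rfl⟩
        obtain ⟨i, hi⟩ := mem_iUnion.1 (hU ⟨⟨u, hu⟩, rfl⟩)
        exact mem_iUnion.2 ⟨i, ⟨⟨u, hu⟩, hi, rfl⟩⟩
      refine (measure_mono e1).trans ((measure_iUnion_le _).trans (ENNReal.tsum_le_tsum fun i => ?_))
      refine (Real.volume_le_diam _).trans ?_
      refine Metric.ediam_le ?_
      rintro _ ⟨x, hx, rfl⟩ _ ⟨y, hy, rfl⟩
      rw [edist_dist]
      refine ENNReal.ofReal_le_ofReal ?_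
      have h1 : |z x - z y| ≤ Metric.diam (U i) := by
        rw [← Real.dist_eq]
        exact Metric.dist_le_diam_of_mem (hUd i).1 hx hy
      have h2 := hφ (c x, (x : Ico (0 : ℝ) 1)) (c y, (y : Ico (0 : ℝ) 1)) (by
        have := h1.trans (hUd i).2
        rw [hz] at this
        exact this)
      rw [Real.dist_eq]
      refine h2.trans ?_
      rw [hz] at h1
      exact hf.mono (mem_Ici.2 (abs_nonneg _)) (mem_Ici.2 ((abs_nonneg _).trans h1)) h1
    refine lt_of_lt_of_le (pos_iff_ne_zero.2 hX) (key.trans ?_)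
    exact le_iSup₂_of_le δ hδ le_rfl
  · intro ν _ _
    by_contra hν
    -- small sets are null
    obtain ⟨F, hF⟩ := hF1 ν
    have hsmall : ∀ x : X, ν (z '' {y | e y < e x}) = 0 := by
      intro x
      have e1 : volume (F '' (z '' {y | e y < e x})) = 0 := by
        apply hXmin
        refine lt_of_le_of_lt (Cardinal.mk_image_le.trans Cardinal.mk_image_le) ?_
        refine lt_of_le_of_lt ?_ (Cardinal.mk_Iio_toType_ord_lt (e x))
        refine Cardinal.mk_le_of_injective (f := fun y : {y | e y < e x} => (⟨e y, y.2⟩ : Iio (e x))) ?_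
        intro u v huv
        exact Subtype.ext (e.injective (congrArg Subtype.val huv))
      exact measure_mono_null (subset_preimage_image F _) (hF _ e1)
    -- codes
    haveI : StandardBorelSpace (Ico (0 : ℝ) 1) := measurableSet_Ico.standardBorel
    have hemb : MeasurableEmbedding φ := hφm.measurableEmbedding hφi
    obtain ⟨g, hg, hgφ⟩ := hemb.exists_measurable_extend (measurable_fst (α := ℕ → Bool) (β := Ico (0 : ℝ) 1))
      (fun _ => ⟨fun _ => false⟩)
    have hgz : ∀ x, g (z x) = c x := by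
      intro x
      rw [hz]
      exact congrFun hgφ (c x, (x : Ico (0 : ℝ) 1))
    obtain ⟨ν', hν'⟩ : ∃ ν' : Measure (ℕ → Bool), ν' = (ν.restrict (range z)).map g := ⟨_, rfl⟩
    haveI : IsFiniteMeasure ν' := by rw [hν']; infer_instance
    have hprod : ((volume : Measure ℝ).prod ν') W = 0 := by
      rw [Measure.prod_apply_symm hWm]
      simp only [lintegral_eq_zero_iff (measurable_measure_prodMk_right hWm)]
      exact ae_of_all _ fun c' => hW0 c'
    have hae := (Measure.measure_prod_null hWm).1 hprod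
    apply hX
    refine measure_mono_null ?_ (ae_iff.1 hae)
    rintro _ ⟨u, hu, rfl⟩
    show ¬ (ν' (Prod.mk (u : ℝ) ⁻¹' W) = 0)
    intro h0
    apply hν
    have hmeas : MeasurableSet (Prod.mk (u : ℝ) ⁻¹' W) := measurable_prodMk_left hWm
    rw [hν', Measure.map_apply hg hmeas, Measure.restrict_apply (hg hmeas)] at h0
    have e2 : range z ⊆ (g ⁻¹' (Prod.mk (u : ℝ) ⁻¹' W) ∩ range z) ∪ z '' {y | e y < e ⟨u, hu⟩} := by
      rintro _ ⟨y, rfl⟩
      rcases lt_or_ge (e y) (e ⟨u, hu⟩) with h | h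
      · exact Or.inr ⟨y, h, rfl⟩
      · left
        refine ⟨?_, y, rfl⟩
        show ((u : ℝ), g (z y)) ∈ W
        rw [hgz]
        exact hc y _ ⟨⟨u, hu⟩, h, rfl⟩
    exact measure_mono_null e2 (measure_union_null h0 (hsmall _))

end Pool.Agent.J6H18.GS
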