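import Mathlib

set_option autoImplicit false

/-!
# Project GS (MP_b87f19_lc): subsets of finite positive Hausdorff measure; definitions and statements of the modules

Every module `XX` is a file `Pool/Agent/J6H18/GS/XX.lean` with `theorem t_XX : S_XX` in the namespace
`Pool.Agent.J6H18.GS`.
-/

open MeasureTheory Filter Set
open scoped Topology ENNReal

namespace Pool.Agent.J6H18.GS

/-- gauge functions: `f` is nondecreasing and right-continuous on `[0, ∞)`, `f 0 = 0`, `f t > 0` for `t > 0` -/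
structure IsGauge (f : ℝ → ℝ) : Prop where
  mono : MonotoneOn f (Ici 0)
  rightCont : ∀ t, 0 ≤ t → ContinuousWithinAt f (Ici t) t
  zero : f 0 = 0
  pos : ∀ t, 0 < t → 0 < f t

/-- `H^f_δ(A)`: the infimum of `∑ f (diam U_i)` over the countable covers of `A` by sets of diameter at most `δ` -/
noncomputable def Hd (f : ℝ → ℝ) (δ : ℝ) (A : Set ℝ) : ℝ≥0∞ :=
  ⨅ (U : ℕ → Set ℝ) (_ : A ⊆ ⋃ i, U i) (_ : ∀ i, Bornology.IsBounded (U i) ∧ Metric.diam (U i) ≤ δ),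
    ∑' i, ENNReal.ofReal (f (Metric.diam (U i)))

/-- `H^f(A)`, the Hausdorff outer measure with gauge `f`: the limit (supremum) of `H^f_δ(A)` as `δ → 0` -/
noncomputable def H (f : ℝ → ℝ) (A : Set ℝ) : ℝ≥0∞ := ⨆ (δ : ℝ) (_ : 0 < δ), Hd f δ A

/-- HM. `H^f` is the outer measure `mkMetric` of Mathlib (`Measure.mkMetric_apply`): for a bounded set
`Metric.diam U = (EMetric.diam U).toReal`, the empty sets contribute `f 0 = 0`, the condition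
`EMetric.diam U ≤ ENNReal.ofReal δ` is the condition in `Hd`, and for `r : ℝ≥0∞`, `0 < r`, there is a real `δ > 0`
with `ENNReal.ofReal δ ≤ r`. -/
def S_HM : Prop := ∀ f : ℝ → ℝ, IsGauge f → ∀ A : Set ℝ,
  H f A = Measure.mkMetric (fun d : ℝ≥0∞ => ENNReal.ofReal (f d.toReal)) A

/-- F1. `F x = (ν (Iic x)).toReal` is monotone. `J = F⁻¹ [a, b]` is measurable, and a compact set `K ⊆ J` is contained
in `Icc x y` with `x = sInf K`, `y = sSup K` in `K`, so `ν K ≤ ν (Ioc x y) = F y - F x ≤ b - a` (no atoms); by inner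
regularity `ν J ≤ b - a`. Hence (`OuterMeasure.le_ofFunction` with `Real.volume_eq_stieltjes_id`, or
`Measure.le_mkMetric` with `hausdorffMeasure_real`) `ν (F⁻¹ N) ≤ volume N` for all `N`. -/
def S_F1 : Prop := ∀ (ν : Measure ℝ) [IsFiniteMeasure ν] [NullSingletonClass ν], ∃ F : ℝ → ℝ, ∀ N : Set ℝ,
  volume N = 0 → ν (F ⁻¹' N) = 0

/-- EN. Let `τ k > 0` with `2 * 4 ^ (k + 1) * t ≤ f t` for `0 ≤ t ≤ τ k`, `m 0 = 0`, `m` strictly increasing with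
`2 ^ (-m k) ≤ τ k` for `k ≥ 1`, `Q k = 2 ^ (m k + 2 k)`, `a k x = ⌊2 ^ m k * x⌋` (so `a 0 x = 0`) and
`φ (c, x) = ∑' k, (4 (a (k+1) x - 2 ^ (m (k+1) - m k) * a k x) + 2 c k) / Q (k+1)` (`c k ∈ {0, 1}`).
As `0 ≤ a (k+1) x - 2 ^ (m (k+1) - m k) a k x ≤ 2 ^ (m (k+1) - m k) - 1`, the term is in `[0, 1 / Q k - 2 / Q (k+1)]`
and the tail `∑_{j ≥ k}` is in `[0, 1 / Q k]` (telescoping). Let `p = (c, x) ≠ q = (c', x')`, `z, z'` their images, and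
`k` the first level where `(a (k+1) x, c k) ≠ (a (k+1) x', c' k)`; `D = |a (k+1) x - a (k+1) x'|`.
If `D ≥ 1` then `|z - z'| ≥ (4 D - 2 - 1) / Q (k+1) ≥ D / Q (k+1)` and `|x - x'| ≤ (D + 1) / 2 ^ m (k+1)
≤ 2 D 4 ^ (k+1) / Q (k+1)`; if `D = 0` then `|z - z'| ≥ 1 / Q (k+1)` and `|x - x'| ≤ 1 / 2 ^ m (k+1)`.
So always `|z - z'| > 0`, `|x - x'| ≤ 2 * 4 ^ (k+1) * |z - z'|` and `|z - z'| ≤ 1 / Q k`, whence
`|x - x'| ≤ f |z - z'|` if `|z - z'| ≤ δ = τ 0`. -/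
def S_EN : Prop := ∀ f : ℝ → ℝ, IsGauge f → Tendsto (fun t => f t / t) (𝓝[>] 0) atTop →
  ∃ (φ : (ℕ → Bool) × (Ico (0 : ℝ) 1) → ℝ) (δ : ℝ), 0 < δ ∧ Measurable φ ∧ Function.Injective φ ∧
    ∀ p q, |φ p - φ q| ≤ δ → |(p.2 : ℝ) - (q.2 : ℝ)| ≤ f |φ p - φ q|

/-- WW. A universal null set. `b k` a countable basis of `ℝ`; `W0 n = {(x, c) : ∃ k, c (Nat.pair n k) ∧ x ∈ b k}`
and `W = {(x, c) : ∀ n, (x, c) ∈ W0 n ∧ volume {y : (y, c) ∈ W0 n} ≤ (n + 1)⁻¹}`, measurable by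
`measurable_measure_prodMk_right`. For a null set `N` and `n` there is an open `U n ⊇ N` of measure `≤ (n + 1)⁻¹`. -/
def S_WW : Prop := ∃ W : Set (ℝ × (ℕ → Bool)), MeasurableSet W ∧ (∀ c, volume {x : ℝ | (x, c) ∈ W} = 0) ∧
  ∀ N : Set ℝ, volume N = 0 → ∃ c, ∀ x ∈ N, (x, c) ∈ W

/-- CV. There are `C` and arbitrarily small `t > 0` with `f t ≤ C t`. Cover `[0, 1]`-sized intervals: `Icc n (n + 1)` is
covered by `⌈1 / t⌉ ≤ 2 / t` intervals of length `t ≤ 1`, so `Hd f δ (Icc n (n + 1)) ≤ 2 C` for every `δ > 0`. -/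
def S_CV : Prop := ∀ f : ℝ → ℝ, IsGauge f → ¬ Tendsto (fun t => f t / t) (𝓝[>] 0) atTop →
  ∀ n : ℤ, H f (Icc (n : ℝ) (n + 1)) < ⊤

end Pool.Agent.J6H18.GS
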