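import Pool.Agent.J6H18.GS.Stm

set_option autoImplicit false

/-!
# Project GS, module WW (helper8): a universal null set
-/

open MeasureTheory Filter Set
open scoped Topology ENNReal

namespace Pool.Agent.J6H18.GS

theorem t_WW : S_WW := by
  classical
  obtain ⟨B, hBc, hBe, hB⟩ := TopologicalSpace.exists_countable_basis ℝ
  have hBne : B.Nonempty := by
    obtain ⟨u, hu, -, -⟩ := hB.exists_subset_of_mem_open (mem_univ (0 : ℝ)) isOpen_univ
    exact ⟨u, hu⟩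
  obtain ⟨b, hb⟩ := hBc.exists_eq_range hBne
  have hbo : ∀ k, IsOpen (b k) := fun k => hB.isOpen (hb ▸ mem_range_self k)
  obtain ⟨W0, hW0⟩ : ∃ W0 : ℕ → Set (ℝ × (ℕ → Bool)), ∀ n p, p ∈ W0 n ↔
      ∃ k, p.2 (Nat.pair n k) = true ∧ p.1 ∈ b k :=
    ⟨fun n => {p | ∃ k, p.2 (Nat.pair n k) = true ∧ p.1 ∈ b k}, fun _ _ => Iff.rfl⟩
  have hmeas0 : ∀ n, MeasurableSet (W0 n) := by
    intro n
    have h1 : W0 n = ⋃ k, ({p : ℝ × (ℕ → Bool) | p.2 (Nat.pair n k) = true} ∩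
        {p : ℝ × (ℕ → Bool) | p.1 ∈ b k}) := by
      ext p
      rw [hW0, mem_iUnion]
      rfl
    rw [h1]
    refine MeasurableSet.iUnion fun k => MeasurableSet.inter ?_ ?_
    · have h2 : Measurable fun p : ℝ × (ℕ → Bool) => p.2 (Nat.pair n k) :=
        (measurable_pi_apply _).comp measurable_snd
      exact h2 (measurableSet_singleton true)
    · exact measurable_fst (hbo k).measurableSet
  obtain ⟨g, hg⟩ : ∃ g : ℕ → (ℕ → Bool) → ℝ≥0∞, ∀ n c, g n c = volume {y : ℝ | (y, c) ∈ W0 n} :=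
    ⟨fun n c => volume {y : ℝ | (y, c) ∈ W0 n}, fun _ _ => rfl⟩
  have hgm : ∀ n, Measurable (g n) := by
    intro n
    have h1 : g n = fun c => volume ((fun x : ℝ => (x, c)) ⁻¹' W0 n) := by
      funext c
      rw [hg]
      rfl
    rw [h1]
    exact measurable_measure_prodMk_right (hmeas0 n)
  refine ⟨⋂ n : ℕ, (W0 n ∩ {p | g n p.2 ≤ ((n : ℝ≥0∞) + 1)⁻¹}), ?_, ?_, ?_⟩
  · refine MeasurableSet.iInter fun n => (hmeas0 n).inter ?_
    exact measurableSet_le ((hgm n).comp measurable_snd) measurable_const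
  · intro c
    by_contra h0
    obtain ⟨n, hn⟩ := ENNReal.exists_inv_nat_lt h0
    have h1 : volume {x : ℝ | (x, c) ∈ ⋂ n : ℕ, (W0 n ∩ {p | g n p.2 ≤ ((n : ℝ≥0∞) + 1)⁻¹})} ≤
        ((n : ℝ≥0∞) + 1)⁻¹ := by
      by_cases hc : g n c ≤ ((n : ℝ≥0∞) + 1)⁻¹
      · rw [hg] at hc
        refine le_trans (measure_mono ?_) hc
        intro x hx
        exact (mem_iInter.1 hx n).1
      · have h2 : {x : ℝ | (x, c) ∈ ⋂ n : ℕ, (W0 n ∩ {p | g n p.2 ≤ ((n : ℝ≥0∞) + 1)⁻¹})} = ∅ := by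
          refine eq_empty_of_forall_notMem fun x hx => hc ?_
          exact (mem_iInter.1 hx n).2
        rw [h2, measure_empty]
        exact bot_le
    have h3 : ((n : ℝ≥0∞) + 1)⁻¹ ≤ (n : ℝ≥0∞)⁻¹ := ENNReal.inv_le_inv.2 le_self_add
    exact absurd (h1.trans h3) (not_le.2 hn)
  · intro N hN
    have hex : ∀ n : ℕ, ∃ U : Set ℝ, N ⊆ U ∧ IsOpen U ∧ volume U < ((n : ℝ≥0∞) + 1)⁻¹ := by
      intro n
      obtain ⟨U, h1, h2, h3⟩ := N.exists_isOpen_lt_of_lt (μ := volume) (((n : ℝ≥0∞) + 1)⁻¹) (by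
        rw [hN]
        exact ENNReal.inv_pos.2 (ENNReal.add_ne_top.2 ⟨ENNReal.natCast_ne_top n, ENNReal.one_ne_top⟩))
      exact ⟨U, h1, h2, h3⟩
    choose U hNU hUo hUv using hex
    obtain ⟨c, hc⟩ : ∃ c : ℕ → Bool, ∀ n k, c (Nat.pair n k) = true ↔ b k ⊆ U n :=
      ⟨fun m => decide (b (Nat.unpair m).2 ⊆ U (Nat.unpair m).1), fun n k => by
        rw [decide_eq_true_iff, Nat.unpair_pair]⟩
    have hU : ∀ n (y : ℝ), (y, c) ∈ W0 n ↔ y ∈ U n := by
      intro n y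
      rw [hW0]
      constructor
      · rintro ⟨k, h1, h2⟩
        exact (hc n k).1 h1 h2
      · intro hy
        obtain ⟨u, hu, hyu, huU⟩ := hB.exists_subset_of_mem_open hy (hUo n)
        rw [hb] at hu
        obtain ⟨k, rfl⟩ := hu
        exact ⟨k, (hc n k).2 huU, hyu⟩
    refine ⟨c, fun x hx => mem_iInter.2 fun n => ⟨(hU n x).2 (hNU n hx), ?_⟩⟩
    change g n c ≤ _
    rw [hg]
    have h1 : {y : ℝ | (y, c) ∈ W0 n} = U n := by
      ext y
      exact hU n y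
    rw [h1]
    exact (hUv n).le

end Pool.Agent.J6H18.GS
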